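import Mathlib

namespace Pool.Agent.Results.MP_201e5f_co.Full

/-- A finite loopless multigraph (edge `e` has ends `src e`, `tgt e`) with a biorientation:
`fwd e` says the arc `src e → tgt e` is present, `bwd e` says `tgt e → src e` is present. -/
structure Bior (V E : Type) where
  src : E → V
  tgt : E → V
  loopless : ∀ e, src e ≠ tgt e
  fwd : E → Bool
  bwd : E → Bool
  oriented : ∀ e, fwd e = true ∨ bwd e = true

variable {V E : Type}

def Bior.Arc (D : Bior V E) (u v : V) : Prop :=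
  ∃ e, (D.fwd e = true ∧ D.src e = u ∧ D.tgt e = v) ∨ (D.bwd e = true ∧ D.tgt e = u ∧ D.src e = v)

/-- out-degree, arcs counted with multiplicity -/
def Bior.outdeg [Fintype E] [DecidableEq V] (D : Bior V E) (v : V) : ℕ :=
  (Finset.univ.filter fun e => D.fwd e = true ∧ D.src e = v).card +
    (Finset.univ.filter fun e => D.bwd e = true ∧ D.tgt e = v).card

/-- every induced subdigraph has a kernel -/
def Bior.KernelPerfect (D : Bior V E) : Prop :=
  ∀ S : Finset V, ∃ U : Finset V, U ⊆ S ∧ (∀ u ∈ U, ∀ v ∈ U, ¬ D.Arc u v) ∧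
    ∀ v ∈ S, v ∉ U → ∃ u ∈ U, D.Arc v u

/-- `(L, C)` is a correspondence assignment: `C e` is a set of pairs (colour at `src e`, colour at
`tgt e`) forming a matching between the two lists -/
def IsCorr (D : Bior V E) (L : V → Finset ℕ) (C : E → Finset (ℕ × ℕ)) : Prop :=
  ∀ e, (∀ p ∈ C e, p.1 ∈ L (D.src e) ∧ p.2 ∈ L (D.tgt e)) ∧
    ∀ p ∈ C e, ∀ q ∈ C e, (p.1 = q.1 ↔ p.2 = q.2)

def Twisted (C : E → Finset (ℕ × ℕ)) (e : E) : Prop := ¬ ∀ p ∈ C e, p.1 = p.2

def IsDerangement (D : Bior V E) (L : V → Finset ℕ) (C : E → Finset (ℕ × ℕ)) : Prop :=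
  ∀ e, Twisted C e → ∀ c ∈ L (D.src e) ∩ L (D.tgt e), (c, c) ∉ C e

def Colourable (D : Bior V E) (L : V → Finset ℕ) (C : E → Finset (ℕ × ℕ)) : Prop :=
  ∃ φ : V → ℕ, (∀ v, φ v ∈ L v) ∧ ∀ e, (φ (D.src e), φ (D.tgt e)) ∉ C e

def D0 : Bior (Fin 3) (Fin 3 × Bool) where
  src e := e.1
  tgt e := e.1 + 1
  loopless := by decide
  fwd _ := true
  bwd e := e.2
  oriented := by decide

def C0 (e : Fin 3 × Bool) : Finset (ℕ × ℕ) :=
  if e.2 then {(0, 1), (1, 0), (2, 3), (3, 2)} else {(0, 0), (1, 1), (2, 2), (3, 3)}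

theorem arc_iff : ∀ u v, D0.Arc u v ↔ u ≠ v := by
  unfold Bior.Arc; decide +kernel

theorem kp : D0.KernelPerfect := by
  intro S
  rcases S.eq_empty_or_nonempty with rfl | ⟨x, hx⟩
  · exact ⟨∅, by simp, by simp, by simp⟩
  · refine ⟨{x}, by simpa using hx, by simp [arc_iff], ?_⟩
    intro v _ hv
    exact ⟨x, by simp, (arc_iff v x).2 (by simpa using hv)⟩

theorem result : ¬ ∀ (V E : Type) [Fintype V] [Fintype E] [DecidableEq V] (D : Bior V E)
    (L : V → Finset ℕ) (C : E → Finset (ℕ × ℕ)), D.KernelPerfect → IsCorr D L C →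
    IsDerangement D L C → (∀ e, Twisted C e → D.fwd e = true ∧ D.bwd e = true) →
    (∀ v, D.outdeg v + 1 ≤ (L v).card) → Colourable D L C := by
  intro h
  obtain ⟨φ, h1, h2⟩ := h (Fin 3) (Fin 3 × Bool) D0 (fun _ => {0, 1, 2, 3}) C0
    kp (by unfold IsCorr; decide +kernel)
    (by unfold IsDerangement Twisted; decide +kernel) (by unfold Twisted; decide +kernel)
    (by decide +kernel)
  have key : ∀ a ∈ ({0, 1, 2, 3} : Finset ℕ), ∀ b ∈ ({0, 1, 2, 3} : Finset ℕ),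
      ∀ c ∈ ({0, 1, 2, 3} : Finset ℕ), ¬ ((a, b) ∉ C0 (0, true) ∧ (a, b) ∉ C0 (0, false) ∧
        (b, c) ∉ C0 (1, true) ∧ (b, c) ∉ C0 (1, false) ∧
        (c, a) ∉ C0 (2, true) ∧ (c, a) ∉ C0 (2, false)) := by decide +kernel
  exact key _ (h1 0) _ (h1 1) _ (h1 2) ⟨h2 (0, true), h2 (0, false), h2 (1, true), h2 (1, false),
    h2 (2, true), h2 (2, false)⟩

end Pool.Agent.Results.MP_201e5f_co.Full
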